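import Pool.Agent.H8.MC.FTargets

/-!
# The additional labels exist on all squares
-/

set_option autoImplicit false

namespace Pool.Agent.H69.MF

open Pool.Agent.H8.MC
open Pool.Agent.H8.PL (GridF)

theorem carry_succ (n m : ℕ) : decide (n % 2 ^ (m + 1) = 2 ^ (m + 1) - 1) =
    (n.testBit m && decide (n % 2 ^ m = 2 ^ m - 1)) := by
  have h := Nat.mod_pow_succ (x := n) (b := 2) (k := m)
  have h1 : n % 2 ^ m < 2 ^ m := Nat.mod_lt _ (by positivity)
  have h2 : (2 : ℕ) ^ (m + 1) = 2 ^ m + 2 ^ m := by rw [pow_succ]; ring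
  have h3 : 0 < 2 ^ m := by positivity
  rw [h, Nat.testBit_eq_decide_div_mod_eq]
  rcases Nat.mod_two_eq_zero_or_one (n / 2 ^ m) with h5 | h5
  · rw [h5, Nat.mul_zero, Nat.add_zero]
    have h6 : ¬ (n % 2 ^ m = 2 ^ (m + 1) - 1) := by omega
    rw [decide_eq_false h6]
    rfl
  · rw [h5, Nat.mul_one, decide_eq_true (rfl : (1 : ℕ) = 1), Bool.true_and]
    have h6 : (n % 2 ^ m + 2 ^ m = 2 ^ (m + 1) - 1) ↔ n % 2 ^ m = 2 ^ m - 1 := by omega
    exact decide_eq_decide.2 h6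

theorem bit_succ (n m : ℕ) : (n + 1).testBit m =
    xor (n.testBit m) (decide (n % 2 ^ m = 2 ^ m - 1)) := by
  have h3 : 0 < 2 ^ m := by positivity
  rw [Nat.testBit_eq_decide_div_mod_eq, Nat.testBit_eq_decide_div_mod_eq, Nat.succ_div]
  have h4 : 2 ^ m ∣ n + 1 ↔ n % 2 ^ m = 2 ^ m - 1 := by
    have h1 : n % 2 ^ m < 2 ^ m := Nat.mod_lt _ h3
    have h5 := Nat.mod_add_div n (2 ^ m)
    constructor
    · rintro ⟨c, hc⟩
      by_contra hne
      have h6 : (n + 1) % 2 ^ m = n % 2 ^ m + 1 := by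
        rw [Nat.add_mod, Nat.mod_eq_of_lt (a := n % 2 ^ m + 1 % 2 ^ m)]
        · rcases Nat.lt_or_ge 1 (2 ^ m) with h7 | h7
          · rw [Nat.mod_eq_of_lt h7]
          · omega
        · rcases Nat.lt_or_ge 1 (2 ^ m) with h7 | h7
          · rw [Nat.mod_eq_of_lt h7]; omega
          · omega
      rw [hc, Nat.mul_mod_right] at h6
      omega
    · intro h6
      exact ⟨n / 2 ^ m + 1, by rw [Nat.mul_add, Nat.mul_one]; omega⟩
  by_cases h : n % 2 ^ m = 2 ^ m - 1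
  · rw [if_pos (h4.2 h), decide_eq_true h]
    rcases Nat.mod_two_eq_zero_or_one (n / 2 ^ m) with h5 | h5
    · have h6 : (n / 2 ^ m + 1) % 2 = 1 := by omega
      rw [decide_eq_true h6, decide_eq_false (by omega)]
      rfl
    · have h6 : ¬ (n / 2 ^ m + 1) % 2 = 1 := by omega
      rw [decide_eq_false h6, decide_eq_true h5]
      rfl
  · rw [if_neg (fun h5 => h (h4.1 h5)), decide_eq_false h, Nat.add_zero, Bool.xor_false]

theorem no_overflow (n m K : ℕ) (hm : m + 1 = K) (hn : n < K) :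
    ¬ (n.testBit m = true ∧ decide (n % 2 ^ m = 2 ^ m - 1) = true) := by
  intro h
  have h1 := carry_succ n m
  rw [h.1, h.2, Bool.and_self] at h1
  have h2 := of_decide_eq_true h1
  rw [hm] at h2
  have h3 : K < 2 ^ K := Nat.lt_two_pow_self
  rw [Nat.mod_eq_of_lt (by omega)] at h2
  omega

/-- the numbers of Kari and Culik -/
noncomputable def rr : ℕ → ℚ
  | 0 => 1
  | y + 1 => if rr y ≤ 1 then 2 * rr y else (2 / 3) * rr y

theorem rr_bd (y : ℕ) : 2 / 3 < rr y ∧ rr y ≤ 2 := by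
  induction y with
  | zero => rw [rr]; norm_num
  | succ y ih =>
    rw [rr]
    split_ifs with h
    · constructor <;> linarith [ih.1]
    · push Not at h
      constructor <;> linarith [ih.2]

/-- the digits of a row -/
noncomputable def da (x y : ℕ) : ℤ := ⌊((x : ℚ) + 1) * rr y⌋ - ⌊(x : ℚ) * rr y⌋

theorem da_bd (x y : ℕ) : 0 ≤ da x y ∧ da x y ≤ 2 ∧ (1 ≤ rr y → 1 ≤ da x y) := by
  have h := rr_bd y
  have e : ((x : ℚ) + 1) * rr y = (x : ℚ) * rr y + rr y := by ring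
  rw [da, e]
  refine ⟨?_, ?_, ?_⟩
  · have : ⌊(x : ℚ) * rr y⌋ ≤ ⌊(x : ℚ) * rr y + rr y⌋ := Int.floor_le_floor (by linarith)
    omega
  · have : ⌊(x : ℚ) * rr y + rr y⌋ ≤ ⌊(x : ℚ) * rr y + (2 : ℤ)⌋ :=
      Int.floor_le_floor (by push_cast; linarith)
    rw [Int.floor_add_intCast] at this
    omega
  · intro h1
    have : ⌊(x : ℚ) * rr y + (1 : ℤ)⌋ ≤ ⌊(x : ℚ) * rr y + rr y⌋ :=
      Int.floor_le_floor (by push_cast; linarith)
    rw [Int.floor_add_intCast] at this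
    omega

/-- is the factor two? -/
noncomputable def dq (y : ℕ) : Bool := decide (rr y ≤ 1)

theorem rr_succ (y : ℕ) : 3 * rr (y + 1) = (fac (dq y) : ℚ) * rr y := by
  rw [rr, dq, fac]
  by_cases h : rr y ≤ 1
  · rw [if_pos h, decide_eq_true h]
    norm_num
    ring
  · rw [if_neg h, decide_eq_false h]
    norm_num
    ring

/-- the carries -/
noncomputable def ds (x y : ℕ) : ℤ :=
  fac (dq y) * ⌊(x : ℚ) * rr y⌋ - 3 * ⌊(x : ℚ) * rr (y + 1)⌋ + 5

theorem ds_bd (x y : ℕ) : 0 ≤ ds x y ∧ ds x y ≤ 7 := by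
  have h1 := Int.floor_le ((x : ℚ) * rr y)
  have h2 := Int.lt_floor_add_one ((x : ℚ) * rr y)
  have h3 := Int.floor_le ((x : ℚ) * rr (y + 1))
  have h4 := Int.lt_floor_add_one ((x : ℚ) * rr (y + 1))
  have h5 : 3 * ((x : ℚ) * rr (y + 1)) = (fac (dq y) : ℚ) * ((x : ℚ) * rr y) := by
    linear_combination (x : ℚ) * rr_succ y
  have h6 : (0 : ℚ) < (fac (dq y) : ℚ) ∧ (fac (dq y) : ℚ) ≤ 6 := by
    rw [fac]; split_ifs <;> norm_num
  have h7 : (ds x y : ℚ) = (fac (dq y) : ℚ) * (⌊(x : ℚ) * rr y⌋ : ℚ) -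
      3 * (⌊(x : ℚ) * rr (y + 1)⌋ : ℚ) + 5 := by
    rw [ds]; push_cast; ring
  have h8 : (-1 : ℚ) < (ds x y : ℚ) := by
    rw [h7]
    nlinarith [h6.1, h6.2]
  have h9 : (ds x y : ℚ) < 8 := by
    rw [h7]
    nlinarith [h6.1, h6.2]
  constructor
  · have : (-1 : ℤ) < ds x y := by exact_mod_cast h8
    omega
  · have : ds x y < (8 : ℤ) := by exact_mod_cast h9
    omega

/-- to `Fin 3` -/
def f3 (z : ℤ) : Fin 3 := ⟨z.toNat % 3, Nat.mod_lt _ (by norm_num)⟩

/-- to `Fin 8` -/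
def f8 (z : ℤ) : Fin 8 := ⟨z.toNat % 8, Nat.mod_lt _ (by norm_num)⟩

theorem f3_val {z : ℤ} (h : 0 ≤ z ∧ z ≤ 2) : ((f3 z).val : ℤ) = z := by
  simp only [f3]; omega

theorem f8_val {z : ℤ} (h : 0 ≤ z ∧ z ≤ 7) : ((f8 z).val : ℤ) = z := by
  simp only [f8]; omega

theorem f3_ne {z : ℤ} (h : 0 ≤ z ∧ z ≤ 2) (h1 : 1 ≤ z) : f3 z ≠ 0 := by
  intro h2
  have h3 := f3_val h
  rw [h2] at h3
  have : ((0 : Fin 3).val : ℤ) = 0 := rfl
  omega

/-- the labels -/
noncomputable def kk (x y : ℕ) : Kl where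
  hb := y.testBit x
  hc := decide (y % 2 ^ x = 2 ^ x - 1)
  vb := x.testBit y
  vc := decide (x % 2 ^ y = 2 ^ y - 1)
  q := dq y
  a := f3 (da x y)
  d := f3 (da x (y + 1))
  s := f8 (ds x y)

theorem pf_AUG : T_AUG := by
  intro K hK
  refine ⟨kk, ?_, ?_, ?_⟩
  · intro x hx y hy
    refine ⟨?_, ?_, ?_, ?_, ?_, ?_⟩
    · intro h
      have h0 : x = 0 := of_decide_eq_true h
      subst h0
      simp only [kk, pow_zero, Nat.mod_one, Nat.sub_self, decide_true]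
    · intro h
      exact no_overflow y x K (of_decide_eq_true h) hy
    · intro h
      have h0 : y = 0 := of_decide_eq_true h
      subst h0
      simp only [kk, pow_zero, Nat.mod_one, Nat.sub_self, decide_true]
    · intro h
      exact no_overflow x y K (of_decide_eq_true h) hx
    · intro h
      have h1 := da_bd x y
      refine f3_ne ⟨h1.1, h1.2.1⟩ (h1.2.2 ?_)
      have h2 : ¬ rr y ≤ 1 := of_decide_eq_false h
      push Not at h2
      exact h2.le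
    · intro h
      have h1 := da_bd x (y + 1)
      refine f3_ne ⟨h1.1, h1.2.1⟩ (h1.2.2 ?_)
      have h2 : rr y ≤ 1 := of_decide_eq_true h
      rw [rr, if_pos h2]
      linarith [(rr_bd y).1]
  · intro x y _ _
    refine ⟨carry_succ y x, bit_succ x y, rfl, ?_⟩
    have h1 := da_bd x y
    have h2 := da_bd x (y + 1)
    have e1 : ((f3 (da x y)).val : ℤ) = da x y := f3_val ⟨h1.1, h1.2.1⟩
    have e2 : ((f3 (da x (y + 1))).val : ℤ) = da x (y + 1) := f3_val ⟨h2.1, h2.2.1⟩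
    have e3 : ((f8 (ds x y)).val : ℤ) = ds x y := f8_val (ds_bd x y)
    have e4 : ((f8 (ds (x + 1) y)).val : ℤ) = ds (x + 1) y := f8_val (ds_bd (x + 1) y)
    show fac (dq y) * ((f3 (da x y)).val : ℤ) + ((f8 (ds x y)).val : ℤ) =
      3 * ((f3 (da x (y + 1))).val : ℤ) + ((f8 (ds (x + 1) y)).val : ℤ)
    rw [e1, e2, e3, e4, da, da, ds, ds]
    push_cast
    ring
  · intro x y _ _
    exact ⟨carry_succ x y, bit_succ y x, rfl⟩

end Pool.Agent.H69.MF
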