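import Pool.Agent.H8.MC.FTargets

/-!
# With the additional labels, the rules imply connectedness
-/

set_option autoImplicit false

namespace Pool.Agent.H69.MF

open Pool.Agent.H8.MC Pool.Agent.H69.VR Pool.Agent.H8.VR Pool.Agent.H69.Sp
open Pool.Agent.H8.PL (GridF Z_GR)

/-- If all elements of a finite set have predecessors, they have successors. -/
theorem succ_of_pred {V : Type} [Finite V] (K : Set V) (N : V → V → Prop)
    (hf : ∀ x y y', N x y → N x y' → y = y') (hp : ∀ y ∈ K, ∃ x ∈ K, N x y) :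
    ∀ x ∈ K, ∃ y ∈ K, N x y := by
  choose! p hpK hpN using hp
  have hi : Function.Injective (fun x : K => (⟨p x, hpK x x.2⟩ : K)) := by
    intro x y hxy
    have h3 : p x = p y := congrArg Subtype.val hxy
    exact Subtype.ext (hf (p x) x y (hpN x x.2) (h3 ▸ hpN y y.2))
  intro x hx
  obtain ⟨y, hy⟩ := Finite.injective_iff_surjective.1 hi ⟨x, hx⟩
  have h4 : p y = x := congrArg Subtype.val hy
  exact ⟨y, y.2, h4 ▸ hpN y y.2⟩

theorem pf_CNN (hTOR : T_TOR) (hROC : T_ROC) (hGR : Z_GR) : T_CNN := by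
  intro L Q U Hh Vv V _ G co rp lb ti h
  obtain ⟨o, ho, hol, hob⟩ := h.cor
  have hE : ∀ x y, Ec G co rp x y → rp x ∧ rp y ∧ ¬ (lb x).r = true ∧ ¬ (lb y).l = true ∧
      ((lb x).b = true ↔ (lb y).b = true) ∧ ((lb x).t = true ↔ (lb y).t = true) := by
    intro x y hxy
    obtain ⟨h1, h2, h3, h4⟩ := h.eE x y hxy
    refine ⟨hxy.1, hxy.2.1, ?_, ?_, ?_, ?_⟩
    · rw [h1]; exact Bool.false_ne_true
    · rw [h2]; exact Bool.false_ne_true
    · rw [h3]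
    · rw [h4]
  have hN : ∀ x y, Nc G co rp x y → rp x ∧ rp y ∧ ¬ (lb x).t = true ∧ ¬ (lb y).b = true ∧
      ((lb x).l = true ↔ (lb y).l = true) ∧ ((lb x).r = true ↔ (lb y).r = true) := by
    intro x y hxy
    obtain ⟨h1, h2, h3, h4⟩ := h.eN x y hxy
    refine ⟨hxy.1, hxy.2.1, ?_, ?_, ?_, ?_⟩
    · rw [h1]; exact Bool.false_ne_true
    · rw [h2]; exact Bool.false_ne_true
    · rw [h3]
    · rw [h4]
  obtain ⟨W, H, g, hW, hH, g0, gE, gN, gM, gI⟩ := hGR V rp (Ec G co rp) (Nc G co rp)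
    (fun x => (lb x).l = true) (fun x => (lb x).r = true) (fun x => (lb x).b = true)
    (fun x => (lb x).t = true) o hE hN h.fE h.iE h.fN h.iN
    (fun x hx hr => h.xE x hx (Bool.not_eq_true _ ▸ hr))
    (fun x hx ht => h.xN x hx (Bool.not_eq_true _ ▸ ht)) ho hol hob h.sq
  set S : Set V := {v | ∃ i < W, ∃ j < H, g i j = v} with hS
  have hSE : ∀ x y, Ec G co rp x y → (x ∈ S ↔ y ∈ S) := by
    intro x y hxy
    constructor
    · rintro ⟨i, hi, j, hj, rfl⟩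
      have h1 : i + 1 < W := by
        have h2 := (gM i hi j hj).2.2.1
        have h3 : ¬ i + 1 = W := fun h4 => (hE _ _ hxy).2.2.1 (h2.2 h4)
        omega
      exact ⟨i + 1, h1, j, hj, h.fE _ _ _ (gE i j h1 hj) hxy⟩
    · rintro ⟨i, hi, j, hj, rfl⟩
      have h1 : i ≠ 0 := fun h4 => (hE _ _ hxy).2.2.2.1 ((gM i hi j hj).2.1.2 h4)
      obtain ⟨k, rfl⟩ := Nat.exists_eq_succ_of_ne_zero h1
      exact ⟨k, by omega, j, hj, h.iE _ _ _ (gE k j hi hj) hxy⟩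
  have hSN : ∀ x y, Nc G co rp x y → (x ∈ S ↔ y ∈ S) := by
    intro x y hxy
    constructor
    · rintro ⟨i, hi, j, hj, rfl⟩
      have h1 : j + 1 < H := by
        have h2 := (gM i hi j hj).2.2.2.2
        have h3 : ¬ j + 1 = H := fun h4 => (hN _ _ hxy).2.2.1 (h2.2 h4)
        omega
      exact ⟨i, hi, j + 1, h1, h.fN _ _ _ (gN i j hi h1) hxy⟩
    · rintro ⟨i, hi, j, hj, rfl⟩
      have h1 : j ≠ 0 := fun h4 => (hN _ _ hxy).2.2.2.1 ((gM i hi j hj).2.2.2.1.2 h4)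
      obtain ⟨k, rfl⟩ := Nat.exists_eq_succ_of_ne_zero h1
      exact ⟨i, hi, k, by omega, h.iN _ _ _ (gN i k hi hj) hxy⟩
  -- the set of the other representatives
  set K : Set V := {x | rp x ∧ x ∉ S} with hK
  have hKE : ∀ x y, Ec G co rp x y → (x ∈ K ↔ y ∈ K) := fun x y hxy =>
    ⟨fun h1 => ⟨hxy.2.1, fun h2 => h1.2 ((hSE x y hxy).2 h2)⟩,
      fun h1 => ⟨hxy.1, fun h2 => h1.2 ((hSE x y hxy).1 h2)⟩⟩
  have hKN : ∀ x y, Nc G co rp x y → (x ∈ K ↔ y ∈ K) := fun x y hxy =>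
    ⟨fun h1 => ⟨hxy.2.1, fun h2 => h1.2 ((hSN x y hxy).2 h2)⟩,
      fun h1 => ⟨hxy.1, fun h2 => h1.2 ((hSN x y hxy).1 h2)⟩⟩
  have hKc : ∀ x ∈ K, ¬ ((lb x).l = true ∧ (lb x).b = true) := by
    rintro x ⟨hx1, hx2⟩ ⟨h1, h2⟩
    exact hx2 ⟨0, hW, 0, hH, g0.trans (h.uc o x ho hx1 hol hob h1 h2)⟩
  -- no first column
  have hl : ∀ x ∈ K, ¬ (lb x).l = true := by
    refine hROC V K (Ec G co rp) (Nc G co rp) (fun x => (lb x).l = true)
      (fun x => (lb x).r = true) (fun x => (ti x).2.hb) (fun x => (ti x).2.hc) ?_ h.fE h.iE ?_ ?_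
      ?_ h.fN h.sq ?_ ?_ ?_ ?_
    · intro x y hxy hx
      exact ⟨(hKE x y hxy).1 hx, (hE x y hxy).2.2.1, (hE x y hxy).2.2.2.1⟩
    · intro x hx hr
      exact h.xE x hx.1 (Bool.not_eq_true _ ▸ hr)
    · have h1 := succ_of_pred {x | x ∈ K ∧ (lb x).l = true} (Nc G co rp) h.fN (by
        rintro y ⟨hy, hyl⟩
        have h2 : (lb y).b = false := Bool.eq_false_iff.2 fun h3 => hKc y hy ⟨hyl, h3⟩
        obtain ⟨x, hx⟩ := h.zN y hy.1 h2
        exact ⟨x, ⟨(hKN x y hx).2 hy, (hN x y hx).2.2.2.2.1.2 hyl⟩, hx⟩)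
      intro x hx hxl
      obtain ⟨y, hy, hxy⟩ := h1 x ⟨hx, hxl⟩
      exact ⟨y, hy.1, hxy, hy.2⟩
    · intro x y hxy hx
      exact ⟨(hKN x y hxy).1 hx, (hN x y hxy).2.2.2.2.2⟩
    · intro x y hxy
      exact (h.hh x y hxy).2.1
    · intro x y hxy
      exact (h.vv x y hxy).2.2.1
    · intro x hx
      exact (h.un x hx.1).2.1
    · intro x hx
      exact (h.un x hx.1).2.2.1
  -- no first row
  have hb : ∀ x ∈ K, ¬ (lb x).b = true := by
    refine hROC V K (Nc G co rp) (Ec G co rp) (fun x => (lb x).b = true)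
      (fun x => (lb x).t = true) (fun x => (ti x).2.vb) (fun x => (ti x).2.vc) ?_ h.fN h.iN ?_ ?_
      ?_ h.fE ?_ ?_ ?_ ?_ ?_
    · intro x y hxy hx
      exact ⟨(hKN x y hxy).1 hx, (hN x y hxy).2.2.1, (hN x y hxy).2.2.2.1⟩
    · intro x hx hr
      exact h.xN x hx.1 (Bool.not_eq_true _ ▸ hr)
    · have h1 := succ_of_pred {x | x ∈ K ∧ (lb x).b = true} (Ec G co rp) h.fE (by
        rintro y ⟨hy, hyl⟩
        have h2 : (lb y).l = false := Bool.eq_false_iff.2 fun h3 => hKc y hy ⟨h3, hyl⟩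
        obtain ⟨x, hx⟩ := h.zE y hy.1 h2
        exact ⟨x, ⟨(hKE x y hx).2 hy, (hE x y hx).2.2.2.2.1.2 hyl⟩, hx⟩)
      intro x hx hxl
      obtain ⟨y, hy, hxy⟩ := h1 x ⟨hx, hxl⟩
      exact ⟨y, hy.1, hxy, hy.2⟩
    · intro x y hxy hx
      exact ⟨(hKE x y hxy).1 hx, (hE x y hxy).2.2.2.2.2⟩
    · intro x y z hxy hxz
      obtain ⟨w, hw1, hw2⟩ := h.sq x z y hxz hxy
      exact ⟨w, hw2, hw1⟩
    · intro x y hxy
      exact (h.vv x y hxy).2.1
    · intro x y hxy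
      exact (h.hh x y hxy).2.2.1
    · intro x hx
      exact (h.un x hx.1).2.2.2.1
    · intro x hx
      exact (h.un x hx.1).2.2.2.2.1
  -- no torus
  have hK0 : K = ∅ := by
    refine hTOR V K (Ec G co rp) (Nc G co rp) (fun x => (ti x).2) ?_ ?_ h.fE h.iE h.fN h.iN h.sq
      (fun x y hxy => (h.hh x y hxy).2) (fun x y hxy => (h.vv x y hxy).2)
      (fun x hx => (h.un x hx.1).2.2.2.2.2)
    · refine succ_of_pred K (Ec G co rp) h.fE fun y hy => ?_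
      obtain ⟨x, hx⟩ := h.zE y hy.1 (Bool.eq_false_iff.2 (hl y hy))
      exact ⟨x, (hKE x y hx).2 hy, hx⟩
    · refine succ_of_pred K (Nc G co rp) h.fN fun y hy => ?_
      obtain ⟨x, hx⟩ := h.zN y hy.1 (Bool.eq_false_iff.2 (hb y hy))
      exact ⟨x, (hKN x y hx).2 hy, hx⟩
  have hall : ∀ x, rp x → x ∈ S := by
    intro x hx
    by_contra h1
    have h2 : x ∈ K := ⟨hx, h1⟩
    rw [hK0] at h2
    exact h2
  have hcon : ∀ Y : Set V, (∃ x ∈ Y, rp x) →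
      (∀ x y, Ec G co rp x y ∨ Nc G co rp x y → (x ∈ Y ↔ y ∈ Y)) → ∀ x, rp x → x ∈ Y := by
    rintro Y ⟨x0, hx0, hr0⟩ hY
    have hrow : ∀ j < H, ∀ i < W, (g i j ∈ Y ↔ g 0 j ∈ Y) := by
      intro j hj i
      induction i with
      | zero => intro _; exact Iff.rfl
      | succ i ih =>
        intro hi
        exact (hY _ _ (Or.inl (gE i j hi hj))).symm.trans (ih (by omega))
    have hcol : ∀ j < H, (g 0 j ∈ Y ↔ g 0 0 ∈ Y) := by
      intro j
      induction j with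
      | zero => intro _; exact Iff.rfl
      | succ j ih =>
        intro hj
        exact (hY _ _ (Or.inr (gN 0 j hW hj))).symm.trans (ih (by omega))
    obtain ⟨i, hi, j, hj, hij⟩ := hall x0 hr0
    rw [← hij] at hx0
    have h00 : g 0 0 ∈ Y := (hcol j hj).1 ((hrow j hj i hi).1 hx0)
    intro x hx
    obtain ⟨i', hi', j', hj', hij'⟩ := hall x hx
    rw [← hij']
    exact (hrow j' hj' i' hi').2 ((hcol j' hj').2 h00)
  exact ⟨h.eE, h.eN, h.fE, h.iE, h.fN, h.iN, h.xE, h.xN, h.cor, h.sq, hcon, h.un, h.hh, h.vv⟩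

end Pool.Agent.H69.MF
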