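import Pool.Agent.H8.MC.FTargets

/-!
# There is no labelled torus
-/

set_option autoImplicit false

namespace Pool.Agent.H69.MF

open Pool.Agent.H8.MC

/-- The torus in terms of two commuting permutations. -/
theorem no_torus {α : Type} [Finite α] (e n : Equiv.Perm α) (hc : e * n = n * e) (k : α → Kl)
    (hh : ∀ x, HA (k x) (k (e x))) (vv : ∀ x, VA (k x) (k (n x)))
    (hq : ∀ x, ((k x).q = false → (k x).a ≠ 0) ∧ ((k x).q = true → (k x).d ≠ 0)) (x0 : α) :
    False := by
  classical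
  set P := orderOf e with hP
  have hP0 : 0 < P := orderOf_pos e
  have hP1 : e ^ P = 1 := pow_orderOf_eq_one e
  set A : α → ℤ := fun x => ∑ j ∈ Finset.range P, (((k ((e ^ j) x)).a.val : ℕ) : ℤ) with hA
  have hsuc : ∀ (j : ℕ) x, (e ^ (j + 1)) x = e ((e ^ j) x) := by
    intro j x
    rw [pow_succ', Equiv.Perm.mul_apply]
  have hqc : ∀ (x : α) (j : ℕ), (k ((e ^ j) x)).q = (k x).q := by
    intro x j
    induction j with
    | zero => rfl
    | succ j ih => rw [hsuc, (hh _).2.2.1, ih]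
  have hcom : ∀ (j : ℕ) x, (e ^ j) (n x) = n ((e ^ j) x) := by
    intro j x
    have h1 : Commute e n := hc
    have h2 := (h1.pow_left j).eq
    have h3 := congrArg (fun f : Equiv.Perm α => f x) h2
    simpa only [Equiv.Perm.mul_apply] using h3
  have hD : ∀ x, ∑ j ∈ Finset.range P, (((k ((e ^ j) x)).d.val : ℕ) : ℤ) = A (n x) := by
    intro x
    refine Finset.sum_congr rfl fun j _ => ?_
    rw [hcom, (vv _).2.2]
  have hS : ∀ x, ∑ j ∈ Finset.range P, (((k ((e ^ (j + 1)) x)).s.val : ℕ) : ℤ) =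
      ∑ j ∈ Finset.range P, (((k ((e ^ j) x)).s.val : ℕ) : ℤ) := by
    intro x
    have h1 := Finset.sum_range_succ (fun j => (((k ((e ^ j) x)).s.val : ℕ) : ℤ)) P
    have h2 := Finset.sum_range_succ' (fun j => (((k ((e ^ j) x)).s.val : ℕ) : ℤ)) P
    rw [h1] at h2
    simp only [hP1, pow_zero] at h2
    linarith
  have hmain : ∀ x, fac (k x).q * A x = 3 * A (n x) := by
    intro x
    have h1 : ∑ j ∈ Finset.range P, (fac (k x).q * (((k ((e ^ j) x)).a.val : ℕ) : ℤ) +
        (((k ((e ^ j) x)).s.val : ℕ) : ℤ)) =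
        ∑ j ∈ Finset.range P, (3 * (((k ((e ^ j) x)).d.val : ℕ) : ℤ) +
        (((k ((e ^ (j + 1)) x)).s.val : ℕ) : ℤ)) := by
      refine Finset.sum_congr rfl fun j _ => ?_
      have h2 := (hh ((e ^ j) x)).2.2.2
      rw [hqc, ← hsuc] at h2
      exact h2
    rw [Finset.sum_add_distrib, Finset.sum_add_distrib, ← Finset.mul_sum, ← Finset.mul_sum, hD,
      hS] at h1
    simp only [hA] at h1 ⊢
    linarith
  have hpa : ∀ x, 0 < A x := by
    intro x
    have hpos : ∀ y : α, (∀ j : ℕ, (k ((e ^ j) y)).a ≠ 0) → 0 < A y := by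
      intro y hy
      refine Finset.sum_pos (fun j _ => ?_) (Finset.nonempty_range_iff.2 hP0.ne')
      have h1 := hy j
      have h2 : ((k ((e ^ j) y)).a.val : ℕ) ≠ 0 := fun h3 => h1 (Fin.ext h3)
      have h3 := Nat.pos_of_ne_zero h2
      exact_mod_cast h3
    cases hb : (k x).q
    · refine hpos x fun j => (hq _).1 ?_
      rw [hqc, hb]
    · have h1 : 0 < A (n x) := by
        refine hpos (n x) fun j => ?_
        rw [hcom, (vv _).2.2]
        refine (hq _).2 ?_
        rw [hqc, hb]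
      have h2 := hmain x
      rw [hb] at h2
      have h3 : fac true = 6 := rfl
      rw [h3] at h2
      omega
  have hind : ∀ i : ℕ, ∃ j : ℕ, (3 : ℤ) ^ j * A ((n ^ i) x0) = 2 ^ i * A x0 := by
    intro i
    induction i with
    | zero => exact ⟨0, by simp⟩
    | succ i ih =>
      obtain ⟨j, hj⟩ := ih
      have h1 : (n ^ (i + 1)) x0 = n ((n ^ i) x0) := by rw [pow_succ', Equiv.Perm.mul_apply]
      have h2 := hmain ((n ^ i) x0)
      rw [h1]
      cases hb : (k ((n ^ i) x0)).q
      · rw [hb] at h2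
        have h3 : fac false = 2 := rfl
        rw [h3] at h2
        refine ⟨j + 1, ?_⟩
        rw [pow_succ, pow_succ]
        linear_combination (2 : ℤ) * hj - 3 ^ j * h2
      · rw [hb] at h2
        have h3 : fac true = 6 := rfl
        rw [h3] at h2
        refine ⟨j, ?_⟩
        rw [pow_succ]
        have h4 : A (n ((n ^ i) x0)) = 2 * A ((n ^ i) x0) := by omega
        rw [h4]
        linear_combination (2 : ℤ) * hj
  obtain ⟨j, hj⟩ := hind (orderOf n)
  rw [pow_orderOf_eq_one, Equiv.Perm.one_apply] at hj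
  have h5 : (3 : ℤ) ^ j = 2 ^ orderOf n := mul_right_cancel₀ (hpa x0).ne' hj
  have h6 : Odd ((3 : ℤ) ^ j) := Odd.pow (by decide)
  have h7 : Even ((2 : ℤ) ^ orderOf n) := (even_two).pow_of_ne_zero (orderOf_pos n).ne'
  rw [h5] at h6
  exact (Int.not_even_iff_odd.2 h6) h7

theorem pf_TOR : T_TOR := by
  intro V _ K E N k h1 h2 fE iE fN iN sq hh vv hq
  by_contra hK
  obtain ⟨x0, hx0⟩ := Set.nonempty_iff_ne_empty.2 hK
  choose! e he heE using h1
  choose! n hn hnN using h2
  have ie : Function.Injective (fun x : K => (⟨e x, he x x.2⟩ : K)) := by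
    intro x y hxy
    have h3 : e x = e y := congrArg Subtype.val hxy
    exact Subtype.ext (iE x y (e x) (heE x x.2) (h3 ▸ heE y y.2))
  have inn : Function.Injective (fun x : K => (⟨n x, hn x x.2⟩ : K)) := by
    intro x y hxy
    have h3 : n x = n y := congrArg Subtype.val hxy
    exact Subtype.ext (iN x y (n x) (hnN x x.2) (h3 ▸ hnN y y.2))
  let ee : Equiv.Perm K := Equiv.ofBijective _ ⟨ie, Finite.injective_iff_surjective.1 ie⟩
  let nn : Equiv.Perm K := Equiv.ofBijective _ ⟨inn, Finite.injective_iff_surjective.1 inn⟩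
  refine no_torus ee nn ?_ (fun x => k x) (fun x => hh x (e x) (heE x x.2))
    (fun x => vv x (n x) (hnN x x.2)) (fun x => hq x x.2) ⟨x0, hx0⟩
  refine Equiv.ext fun x => Subtype.ext ?_
  show e (n x) = n (e x)
  obtain ⟨w, hw1, hw2⟩ := sq x (e x) (n x) (heE x x.2) (hnN x x.2)
  rw [fE _ _ _ (heE (n x) (hn x x.2)) hw1, fN _ _ _ (hnN (e x) (he x x.2)) hw2]

end Pool.Agent.H69.MF
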